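import Pool.Agent.helper86.NF.SpecC

/-!
# Project nf (MP_4467b5_nt): module NMV
-/

set_option autoImplicit false

open Complex MeasureTheory

namespace Pool.Agent.NF

open Pool.Agent.helper84.DM Pool.Agent.helper78.ED Pool.Agent.DH Pool.Agent.ZD

theorem NMV : NMV_stmt := by
  intro T M σ w β hT hM hσ hσ1 hMT hβ hTM
  have hT0 : 0 < T := by linarith
  have hMσ : 0 < M ^ (-(2 * σ)) := Real.rpow_pos_of_pos hM _
  rcases le_total T M with h | h
  · have h1 : (T + M) * M * M ^ (-(2 * σ)) ≤ 2 * (M * M * M ^ (-(2 * σ))) := by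
      have h2 : (T + M) * M ≤ 2 * (M * M) := by nlinarith
      calc (T + M) * M * M ^ (-(2 * σ)) ≤ 2 * (M * M) * M ^ (-(2 * σ)) :=
            mul_le_mul_of_nonneg_right h2 hMσ.le
        _ = _ := by ring
    have h3 : M * M * M ^ (-(2 * σ)) = M ^ (2 - 2 * σ) := by
      have h4 : M * M = M ^ (2 : ℝ) := by
        rw [Real.rpow_two, pow_two]
      rw [h4, ← Real.rpow_add hM]
      congr 1
    have h5 : M ^ (2 - 2 * σ) ≤ T ^ w := by
      calc M ^ (2 - 2 * σ) ≤ (T ^ β) ^ (2 - 2 * σ) :=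
            Real.rpow_le_rpow hM.le hMT (by linarith)
        _ = T ^ (β * (2 - 2 * σ)) := (Real.rpow_mul hT0.le _ _).symm
        _ ≤ T ^ w := Real.rpow_le_rpow_of_exponent_le hT hβ
    rw [h3] at h1
    linarith
  · have h1 : (T + M) * M * M ^ (-(2 * σ)) ≤ 2 * T * (M * M ^ (-(2 * σ))) := by
      have h2 : (T + M) * M ≤ 2 * T * M := mul_le_mul_of_nonneg_right (by linarith) hM.le
      calc (T + M) * M * M ^ (-(2 * σ)) ≤ 2 * T * M * M ^ (-(2 * σ)) :=
            mul_le_mul_of_nonneg_right h2 hMσ.le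
        _ = _ := by ring
    have h3 : M * M ^ (-(2 * σ)) = (M ^ (2 * σ - 1))⁻¹ := by
      rw [← Real.rpow_neg hM.le]
      nth_rewrite 1 [← Real.rpow_one M]
      rw [← Real.rpow_add hM]
      congr 1
      ring
    have h4 : 0 < T ^ (1 - w) := Real.rpow_pos_of_pos hT0 _
    have h5 : (M ^ (2 * σ - 1))⁻¹ ≤ (T ^ (1 - w))⁻¹ := inv_anti₀ h4 hTM
    have h6 : T * (T ^ (1 - w))⁻¹ = T ^ w := by
      rw [← Real.rpow_neg hT0.le]
      nth_rewrite 1 [← Real.rpow_one T]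
      rw [← Real.rpow_add hT0]
      congr 1
      ring
    rw [h3] at h1
    calc (T + M) * M * M ^ (-(2 * σ)) ≤ 2 * T * (M ^ (2 * σ - 1))⁻¹ := h1
      _ ≤ 2 * T * (T ^ (1 - w))⁻¹ := mul_le_mul_of_nonneg_left h5 (by linarith)
      _ = 2 * T ^ w := by rw [mul_assoc, h6]

end Pool.Agent.NF
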