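import Pool.Agent.helper4.NF.SpecA

/-!
# Project nf (MP_4467b5_nt): module IWC
-/

set_option autoImplicit false

open Complex MeasureTheory

namespace Pool.Agent.NF

open Pool.Agent.helper84.DM Pool.Agent.helper78.ED Pool.Agent.DH Pool.Agent.ZD

theorem IWC_norm (n : ℕ) (u : ℝ) : ‖(n : ℂ) ^ (-((u : ℂ) * I))‖ ≤ 1 := by
  rcases Nat.eq_zero_or_pos n with rfl | hn
  · by_cases h : -((u : ℂ) * I) = 0
    · rw [h, Complex.cpow_zero, norm_one]
    · rw [Nat.cast_zero, Complex.zero_cpow h, norm_zero]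
      exact zero_le_one
  · rw [Complex.norm_natCast_cpow_of_pos hn]
    simp

theorem IWC_DG (A : Finset ℕ) (b : ℕ → ℂ) (u : ℝ) : ‖DG A b u‖ ≤ ∑ n ∈ A, ‖b n‖ := by
  unfold DG
  refine (norm_sum_le _ _).trans (Finset.sum_le_sum fun n _ => ?_)
  rw [norm_mul]
  exact mul_le_of_le_one_right (norm_nonneg _) (IWC_norm n u)

theorem IWC_meas (A : Finset ℕ) (b : ℕ → ℂ) : Measurable (DG A b) := by
  unfold DG
  refine Finset.measurable_fun_sum A fun n _ => ?_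
  refine measurable_const.mul ?_
  refine measurable_const.pow ?_
  exact ((Complex.measurable_ofReal).mul_const I).neg

theorem IWC (hDRV : DRV_stmt) : IWC_stmt := by
  intro g hg T X M A b hT t₁ t₂
  obtain ⟨hBc, B, hB⟩ := hDRV.1 g hg X M
  obtain ⟨D, hD⟩ : ∃ D : ℝ, D = ∑ n ∈ A, ‖b n‖ := ⟨_, rfl⟩
  have hD0 : 0 ≤ D := by rw [hD]; exact Finset.sum_nonneg fun _ _ => norm_nonneg _
  have hDG : ∀ u, ‖DG A b u‖ ≤ D := fun u => hD ▸ IWC_DG A b u
  have hB0 : 0 ≤ B := (norm_nonneg _).trans (hB 0)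
  have hgauss : Integrable fun τ : ℝ => Real.exp (-(τ / T) ^ 2) := by
    have h1 : Integrable fun τ : ℝ => Real.exp (-(1 / T ^ 2) * τ ^ 2) :=
      integrable_exp_neg_mul_sq (by positivity)
    refine h1.congr (Filter.Eventually.of_forall fun τ => ?_)
    show Real.exp (-(1 / T ^ 2) * τ ^ 2) = Real.exp (-(τ / T) ^ 2)
    congr 1
    field_simp
  obtain ⟨h, hh⟩ : ∃ h : ℝ → ℝ → ℝ, h = fun t τ =>
      ‖DG A b τ‖ ^ 2 * Real.exp (-(τ / T) ^ 2) * ‖BW g X M (τ - t)‖ ^ 2 := ⟨_, rfl⟩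
  have hh0 : ∀ t τ, 0 ≤ h t τ := by
    intro t τ
    rw [hh]
    positivity
  have hint : ∀ t, Integrable (h t) := by
    intro t
    have hm : Measurable (h t) := by
      rw [hh]
      have m1 : Measurable fun τ : ℝ => ‖DG A b τ‖ ^ 2 := ((IWC_meas A b).norm).pow_const 2
      have m2 : Measurable fun τ : ℝ => Real.exp (-(τ / T) ^ 2) := by fun_prop
      have m3 : Measurable fun τ : ℝ => ‖BW g X M (τ - t)‖ ^ 2 :=
        ((hBc.comp (continuous_id.sub continuous_const)).norm.pow 2).measurable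
      exact (m1.mul m2).mul m3
    refine (hgauss.const_mul (D ^ 2 * B ^ 2)).mono' hm.aestronglyMeasurable
      (Filter.Eventually.of_forall fun τ => ?_)
    rw [Real.norm_eq_abs, abs_of_nonneg (hh0 t τ), hh]
    have e1 : ‖DG A b τ‖ ^ 2 ≤ D ^ 2 := pow_le_pow_left₀ (norm_nonneg _) (hDG τ) 2
    have e2 : ‖BW g X M (τ - t)‖ ^ 2 ≤ B ^ 2 := pow_le_pow_left₀ (norm_nonneg _) (hB _) 2
    have e3 : 0 ≤ Real.exp (-(τ / T) ^ 2) := (Real.exp_pos _).le
    calc ‖DG A b τ‖ ^ 2 * Real.exp (-(τ / T) ^ 2) * ‖BW g X M (τ - t)‖ ^ 2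
        ≤ D ^ 2 * Real.exp (-(τ / T) ^ 2) * B ^ 2 := by gcongr
      _ = D ^ 2 * B ^ 2 * Real.exp (-(τ / T) ^ 2) := by ring
  have hdiag : ∀ t, ‖IW T g X M A b t t‖ = ∫ τ, h t τ := by
    intro t
    have e1 : IW T g X M A b t t = ((∫ τ, h t τ : ℝ) : ℂ) := by
      unfold IW
      rw [← integral_complex_ofReal]
      refine integral_congr_ae (Filter.Eventually.of_forall fun τ => ?_)
      show ((‖DG A b τ‖ ^ 2 * Real.exp (-(τ / T) ^ 2) : ℝ) : ℂ) *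
        (BW g X M (τ - t) * (starRingEnd ℂ) (BW g X M (τ - t))) = ((h t τ : ℝ) : ℂ)
      rw [Complex.mul_conj, Complex.normSq_eq_norm_sq, hh]
      push_cast
      ring
    rw [e1, Complex.norm_real, Real.norm_eq_abs, abs_of_nonneg]
    exact integral_nonneg fun τ => hh0 t τ
  rw [hdiag t₁, hdiag t₂]
  have e2 : ‖IW T g X M A b t₁ t₂‖ ≤ ∫ τ, (h t₁ τ + h t₂ τ) / 2 := by
    unfold IW
    refine (norm_integral_le_integral_norm _).trans ?_
    refine integral_mono_of_nonneg (Filter.Eventually.of_forall fun _ => norm_nonneg _)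
      (((hint t₁).add (hint t₂)).div_const 2) (Filter.Eventually.of_forall fun τ => ?_)
    show ‖((‖DG A b τ‖ ^ 2 * Real.exp (-(τ / T) ^ 2) : ℝ) : ℂ) *
        (BW g X M (τ - t₁) * (starRingEnd ℂ) (BW g X M (τ - t₂)))‖ ≤ (h t₁ τ + h t₂ τ) / 2
    rw [norm_mul, norm_mul, RCLike.norm_conj, Complex.norm_real, Real.norm_eq_abs,
      abs_of_nonneg (by positivity), hh]
    have e3 : 0 ≤ ‖DG A b τ‖ ^ 2 * Real.exp (-(τ / T) ^ 2) := by positivity
    have e4 : ‖BW g X M (τ - t₁)‖ * ‖BW g X M (τ - t₂)‖ ≤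
        (‖BW g X M (τ - t₁)‖ ^ 2 + ‖BW g X M (τ - t₂)‖ ^ 2) / 2 := by
      nlinarith [sq_nonneg (‖BW g X M (τ - t₁)‖ - ‖BW g X M (τ - t₂)‖)]
    calc ‖DG A b τ‖ ^ 2 * Real.exp (-(τ / T) ^ 2) *
          (‖BW g X M (τ - t₁)‖ * ‖BW g X M (τ - t₂)‖)
        ≤ ‖DG A b τ‖ ^ 2 * Real.exp (-(τ / T) ^ 2) *
          ((‖BW g X M (τ - t₁)‖ ^ 2 + ‖BW g X M (τ - t₂)‖ ^ 2) / 2) :=
          mul_le_mul_of_nonneg_left e4 e3
      _ = _ := by ring
  rw [integral_div, integral_add (hint t₁) (hint t₂)] at e2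
  exact e2

end Pool.Agent.NF
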